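import Mathlib

set_option autoImplicit false

namespace Pool.Agent.Results.MP_836f85_an.Cubic

open Set

/-- The B-spline `B ξ p i` of degree `p` with knots `ξ i, …, ξ (i+p+1)` (Cox-de Boor recursion). -/
noncomputable def B (ξ : ℕ → ℝ) : ℕ → ℕ → ℝ → ℝ
  | 0, i, x => if ξ i ≤ x ∧ x < ξ (i + 1) then 1 else 0
  | p + 1, i, x => (x - ξ i) / (ξ (i + p + 1) - ξ i) * B ξ p i x +
      (ξ (i + p + 2) - x) / (ξ (i + p + 2) - ξ (i + 1)) * B ξ p (i + 1) x

noncomputable def P : Fin 4 → ℝ → ℝ := ![fun x => (4 - x) ^ 3 / 6,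
  fun x => (3 * (x - 3) ^ 3 - 6 * (x - 3) ^ 2 + 4) / 6,
  fun x => (-3 * (x - 3) ^ 3 + 3 * (x - 3) ^ 2 + 3 * (x - 3) + 1) / 6, fun x => (x - 3) ^ 3 / 6]

lemma B_eq (j : Fin 4) {x : ℝ} (hx : x ∈ Icc (3 : ℝ) 4) : B (fun i => i) 3 j x = P j x := by
  rcases hx.2.eq_or_lt with rfl | h
  · fin_cases j <;> norm_num [B, P]
  · have := hx.1
    have a1 : ¬ x < 1 := by linarith
    have a2 : ¬ x < 2 := by linarith
    have a3 : ¬ x < 3 := by linarith
    have a4 : ¬ 4 ≤ x := by linarith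
    have a5 : ¬ 5 ≤ x := by linarith
    have a6 : ¬ 6 ≤ x := by linarith
    fin_cases j <;> norm_num [B, P, *] <;> ring

theorem result : ∃ (p n : ℕ) (ξ : ℕ → ℝ) (x w γ : Fin n → ℝ) (M : ℝ), 1 ≤ p ∧ StrictMono ξ ∧
    StrictMono x ∧ (∀ i, x i ∈ Icc (ξ p) (ξ n)) ∧ (∀ i : Fin n, 0 < B ξ p i (x i)) ∧
    (∀ j : Fin n, ∑ k, w k * B ξ p j (x k) = ∫ t in ξ p..ξ n, B ξ p j t) ∧
    (∀ i : Fin n, ∑ j : Fin n, γ j * B ξ p j (x i) = (-1) ^ (i : ℕ)) ∧
    (∀ t ∈ Icc (ξ p) (ξ n), |∑ j : Fin n, γ j * B ξ p j t| ≤ M) ∧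
    M * (∫ _ in ξ p..ξ n, (1 : ℝ)) < ∑ k, |w k| := by
  have hx : ∀ i : Fin 4, ![(3 : ℝ), 31 / 10, 39 / 10, 4] i ∈ Icc (3 : ℝ) 4 := fun i => by
    fin_cases i <;> norm_num
  refine ⟨3, 4, fun i => i, ![3, 31 / 10, 39 / 10, 4], ![-23 / 54, 25 / 27, 25 / 27, -23 / 54],
    ![78, -24, 24, -78], 2, by norm_num, Nat.strictMono_cast, Fin.strictMono_iff_lt_succ.2 fun i => ?_,
    by simpa using hx, fun i => ?_, fun j => ?_, fun i => ?_, fun t ht => ?_, ?_⟩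
  · fin_cases i <;> simp <;> norm_num
  · rw [B_eq i (hx i)]; fin_cases i <;> simp [P] <;> norm_num
  · simp only [B_eq _ (hx _), Nat.cast_ofNat]
    rw [intervalIntegral.integral_congr (g := P j) fun t ht => B_eq j (by rwa [uIcc_of_le (by norm_num)] at ht)]
    fin_cases j <;> simp [Fin.sum_univ_four, P] <;> ring_nf <;>
      simp (disch := apply Continuous.intervalIntegrable; fun_prop) only [intervalIntegral.integral_add,
        intervalIntegral.integral_sub, intervalIntegral.integral_mul_const, integral_pow, integral_id,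
        intervalIntegral.integral_const] <;> norm_num
  · simp only [B_eq _ (hx _)]; fin_cases i <;> simp [Fin.sum_univ_four, P] <;> norm_num
  · simp only [Nat.cast_ofNat] at ht
    simp only [B_eq _ ht]
    simp [Fin.sum_univ_four, P, abs_le]
    obtain ⟨h1, h2⟩ := ht
    constructor <;> nlinarith [sq_nonneg (t - 13 / 4), sq_nonneg (t - 15 / 4), sq_nonneg (t - 7 / 2),
      mul_nonneg (sub_nonneg.2 h1) (sq_nonneg (t - 15 / 4)), mul_nonneg (sub_nonneg.2 h2) (sq_nonneg (t - 13 / 4)),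
      mul_nonneg (sub_nonneg.2 h1) (sub_nonneg.2 h2)]
  · simp [Fin.sum_univ_four, abs_div]; norm_num

end Pool.Agent.Results.MP_836f85_an.Cubic
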